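import Mathlib

/-!
# The order of a subgroup from its images in the factors
-/

set_option autoImplicit false

namespace Pool.Agent.OrdM

open Finset

variable {G : Type} [Group G] {X : ℕ → Type} [∀ q, Group (X q)]

/-- the elements of `H` with trivial images for all indices in `S` -/
def kerS (φ : ∀ q, G →* X q) (H : Subgroup G) (S : Finset ℕ) : Subgroup G where
  carrier := {h | h ∈ H ∧ ∀ q ∈ S, φ q h = 1}
  one_mem' := ⟨H.one_mem, fun q _ => map_one (φ q)⟩
  mul_mem' {x y} hx hy := ⟨H.mul_mem hx.1 hy.1, fun q hq => by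
    rw [map_mul, hx.2 q hq, hy.2 q hq, mul_one]⟩
  inv_mem' {x} hx := ⟨H.inv_mem hx.1, fun q hq => by rw [map_inv, hx.2 q hq, inv_one]⟩

theorem mem_kerS {φ : ∀ q, G →* X q} {H : Subgroup G} {S : Finset ℕ} {h : G} :
    h ∈ kerS φ H S ↔ h ∈ H ∧ ∀ q ∈ S, φ q h = 1 := Iff.rfl

theorem card_step [Finite G] (φ : ∀ q, G →* X q) (H : Subgroup G) (S : Finset ℕ) (a : ℕ) :
    Nat.card (kerS φ H S) =
      Nat.card (kerS φ H (insert a S)) * Nat.card ((kerS φ H S).map (φ a)) := by
  let K := kerS φ H S
  let f : K →* X a := (φ a).comp K.subtype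
  have h1 : Nat.card K = Nat.card (K ⧸ f.ker) * Nat.card f.ker :=
    Subgroup.card_eq_card_quotient_mul_card_subgroup f.ker
  have h2 : Nat.card (K ⧸ f.ker) = Nat.card f.range :=
    Nat.card_congr (QuotientGroup.quotientKerEquivRange f).toEquiv
  have h3 : f.range = K.map (φ a) := by
    ext x
    constructor
    · rintro ⟨y, rfl⟩
      exact ⟨y.1, y.2, rfl⟩
    · rintro ⟨y, hy, rfl⟩
      exact ⟨⟨y, hy⟩, rfl⟩
  have h4 : Nat.card f.ker = Nat.card (kerS φ H (insert a S)) := by
    have h5 : f.ker.map K.subtype = kerS φ H (insert a S) := by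
      ext x
      constructor
      · rintro ⟨y, hy, rfl⟩
        have hy1 : φ a y.1 = 1 := hy
        refine ⟨y.2.1, fun q hq => ?_⟩
        rcases Finset.mem_insert.1 hq with rfl | hq
        · exact hy1
        · exact y.2.2 q hq
      · rintro ⟨hx, h⟩
        exact ⟨⟨x, hx, fun q hq => h q (Finset.mem_insert_of_mem hq)⟩,
          h a (Finset.mem_insert_self _ _), rfl⟩
    rw [← h5]
    exact Nat.card_congr (f.ker.equivMapOfInjective K.subtype K.subtype_injective).toEquiv
  rw [h1, h2, h3, h4, mul_comm]

/-- The order of `H` is the order of the subgroup with trivial images, times the orders of the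
images of the subgroups with trivial images for the smaller indices. -/
theorem card_chain [Finite G] (φ : ∀ q, G →* X q) (H : Subgroup G) (S : Finset ℕ) :
    Nat.card H = Nat.card (kerS φ H S) *
      ∏ q ∈ S, Nat.card ((kerS φ H (S.filter (· < q))).map (φ q)) := by
  induction S using Finset.induction_on_max with
  | empty =>
    rw [Finset.prod_empty, mul_one]
    have e : kerS φ H ∅ = H := by
      ext x
      rw [mem_kerS]
      simp
    rw [e]
  | insert a S ha ih =>
    have ha' : a ∉ S := fun h => lt_irrefl a (ha a h)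
    rw [Finset.prod_insert ha', ih, card_step φ H S a]
    have e1 : (insert a S).filter (· < a) = S := by
      ext x
      rw [Finset.mem_filter, Finset.mem_insert]
      constructor
      · rintro ⟨rfl | h, h1⟩
        · exact absurd h1 (lt_irrefl _)
        · exact h
      · exact fun h => ⟨Or.inr h, ha x h⟩
    have e2 : ∏ q ∈ S, Nat.card ((kerS φ H ((insert a S).filter (· < q))).map (φ q)) =
        ∏ q ∈ S, Nat.card ((kerS φ H (S.filter (· < q))).map (φ q)) := by
      refine Finset.prod_congr rfl fun q hq => ?_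
      have e3 : (insert a S).filter (· < q) = S.filter (· < q) := by
        rw [Finset.filter_insert, if_neg (ha q hq).not_gt]
      rw [e3]
    rw [e1, e2]
    ring

end Pool.Agent.OrdM
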