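import Pool.Agent.OrdM.Chain
import Pool.Agent.LRch.SgMod
import Pool.Agent.LRch.Mods

/-!
# Reduction of a subgroup of `GL_r(ℤ/m)` modulo the prime powers which divide `m`
-/

set_option autoImplicit false

namespace Pool.Agent.OrdM

open Finset Pool.Agent.LRch

/-- the part of `m` at the prime `q`, minus one -/
def pr (m q : ℕ) : ℕ := q ^ m.factorization q - 1

theorem pr_add (m q : ℕ) : pr m q + 1 = q ^ m.factorization q :=
  Nat.sub_add_cancel (Nat.ordProj_pos m q)

theorem pr_dvd (m q : ℕ) : pr m q + 1 ∣ m := by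
  rw [pr_add]
  exact Nat.ordProj_dvd m q

/-- reduction modulo the part at `q` -/
def rd (r m q : ℕ) : GL (Fin r) (ZMod m) →* GL (Fin r) (ZMod (pr m q + 1)) :=
  redGL r (pr_dvd m q)

theorem redGL_val {r m q : ℕ} [NeZero m] [NeZero q] (h : q ∣ m) (g : GL (Fin r) (ZMod m))
    (i j : Fin r) : (gmat (redGL r h g) i j).val = (gmat g i j).val % q := by
  have h1 : gmat (redGL r h g) i j = ZMod.castHom h (ZMod q) (gmat g i j) := rfl
  rw [h1, ← ZMod.natCast_zmod_val (gmat g i j), map_natCast, ZMod.val_natCast, ZMod.val_natCast,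
    Nat.mod_eq_of_lt (ZMod.val_lt (gmat g i j))]

theorem rd_val {r m q : ℕ} [NeZero m] (g : GL (Fin r) (ZMod m)) (i j : Fin r) :
    (gmat (rd r m q g) i j).val = (gmat g i j).val % (pr m q + 1) :=
  redGL_val (pr_dvd m q) g i j

/-- an invertible matrix which is trivial modulo all parts of `m` -/
theorem eq_one_of_rd {r m : ℕ} [NeZero m] (g : GL (Fin r) (ZMod m))
    (h : ∀ q ∈ m.primeFactors, rd r m q g = 1) : g = 1 := by
  refine Units.ext ?_
  ext i j
  have hm : m ≠ 0 := NeZero.ne m
  have h1 : (m : ℤ) ∣ ((gmat g i j).val : ℤ) - ((1 : Matrix (Fin r) (Fin r) ℤ) i j) := by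
    refine Int.natAbs_dvd_natAbs.1 ?_
    rw [Int.natAbs_natCast, Nat.dvd_iff_prime_pow_dvd_dvd]
    intro p k hp hk
    rcases Nat.eq_zero_or_pos k with rfl | hk0
    · rw [pow_zero]
      exact one_dvd _
    have hpm : p ∣ m := (dvd_pow_self p hk0.ne').trans hk
    have h2 := h p (Nat.mem_primeFactors.2 ⟨hp, hpm, hm⟩)
    have h3 := rd_val (q := p) g i j
    rw [h2] at h3
    have h4 : p ^ k ∣ pr m p + 1 := by
      rw [pr_add]
      exact pow_dvd_pow p ((hp.pow_dvd_iff_le_factorization hm).1 hk)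
    refine h4.trans ?_
    rw [← Int.natCast_dvd_natCast, Int.dvd_natAbs]
    have h5 : (((gmat g i j).val : ℤ) : ZMod (pr m p + 1)) =
        (((1 : Matrix (Fin r) (Fin r) ℤ) i j : ℤ) : ZMod (pr m p + 1)) := by
      have h6 : ((1 : Matrix (Fin r) (Fin r) ℤ) i j : ZMod (pr m p + 1)) =
          (1 : Matrix (Fin r) (Fin r) (ZMod (pr m p + 1))) i j := by
        by_cases hij : i = j
        · rw [hij, Matrix.one_apply_eq, Matrix.one_apply_eq, Int.cast_one]
        · rw [Matrix.one_apply_ne hij, Matrix.one_apply_ne hij, Int.cast_zero]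
      rw [h6, Int.cast_natCast]
      have h7 : gmat (1 : GL (Fin r) (ZMod (pr m p + 1))) i j =
          (1 : Matrix (Fin r) (Fin r) (ZMod (pr m p + 1))) i j := rfl
      rw [← h7, ← ZMod.natCast_zmod_val (gmat (1 : GL (Fin r) (ZMod (pr m p + 1))) i j), h3]
      exact ((ZMod.natCast_eq_natCast_iff _ _ _).2 (Nat.mod_modEq _ _)).symm
    exact (ZMod.intCast_eq_intCast_iff_dvd_sub _ _ _).1 h5.symm
  have h8 := (ZMod.intCast_eq_intCast_iff_dvd_sub ((1 : Matrix (Fin r) (Fin r) ℤ) i j)
    ((gmat g i j).val : ℤ) m).2 h1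
  rw [Int.cast_natCast, ZMod.natCast_zmod_val] at h8
  rw [Units.val_one]
  refine h8.symm.trans ?_
  by_cases hij : i = j
  · rw [hij, Matrix.one_apply_eq, Matrix.one_apply_eq, Int.cast_one]
  · rw [Matrix.one_apply_ne hij, Matrix.one_apply_ne hij, Int.cast_zero]

/-- for an index which is not a prime divisor the reduction is trivial -/
theorem rd_triv {r m q : ℕ} (hq : q ∉ m.primeFactors) (g : GL (Fin r) (ZMod m)) :
    rd r m q g = 1 := by
  have h1 : pr m q + 1 = 1 := by
    rw [pr_add]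
    have h2 : m.factorization q = 0 := by
      rw [← Finsupp.notMem_support_iff, Nat.support_factorization]
      exact hq
    rw [h2, pow_zero]
  have h3 : ∀ k : ℕ, k = 1 → ∀ x : GL (Fin r) (ZMod k), x = 1 := by
    rintro k rfl x
    exact Subsingleton.elim _ _
  exact h3 _ h1 _

/-- the image modulo the part at `q` of the subgroup of the elements of `H` which are trivial
modulo the parts at the numbers below `q` -/
def DD {r m : ℕ} (H : Subgroup (GL (Fin r) (ZMod m))) (q : ℕ) :
    Subgroup (GL (Fin r) (ZMod (pr m q + 1))) :=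
  (kerS (rd r m) H (range q)).map (rd r m q)

theorem card_prod {r m : ℕ} [NeZero m] (H : Subgroup (GL (Fin r) (ZMod m))) :
    Nat.card H = ∏ q ∈ m.primeFactors, Nat.card (DD H q) := by
  have hm : m ≠ 0 := NeZero.ne m
  rw [card_chain (rd r m) H m.primeFactors]
  have h1 : kerS (rd r m) H m.primeFactors = ⊥ := by
    rw [eq_bot_iff]
    intro g hg
    rw [Subgroup.mem_bot]
    exact eq_one_of_rd g hg.2
  rw [h1, Subgroup.card_bot, one_mul]
  refine Finset.prod_congr rfl fun q _ => ?_
  have h2 : kerS (rd r m) H (m.primeFactors.filter (· < q)) = kerS (rd r m) H (range q) := by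
    ext g
    rw [mem_kerS, mem_kerS]
    refine and_congr_right fun _ => ⟨fun h q' hq' => ?_, fun h q' hq' => ?_⟩
    · by_cases h3 : q' ∈ m.primeFactors
      · exact h q' (Finset.mem_filter.2 ⟨h3, Finset.mem_range.1 hq'⟩)
      · exact rd_triv h3 g
    · exact h q' (Finset.mem_range.2 (Finset.mem_filter.1 hq').2)
  rw [h2, DD]

end Pool.Agent.OrdM
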