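import Pool.Agent.OrdM.Loc
import Pool.Agent.LRch.UMods
import Pool.Agent.PtC.ProdPoly
import Pool.Agent.PtC.NthPF
import Pool.Agent.ApC.OrdProj

/-!
# The orders of all definable subgroups of `GL_r(ℤ/m)`, for all moduli `m`
-/

set_option autoImplicit false

namespace Pool.Agent.OrdM

open Finset Pool.Agent.Grz Pool.Agent.GAvg Pool.Agent.PTr Pool.Agent.MTr Pool.Agent.LPC
open Pool.Agent.ECD Pool.Agent.LRch

private theorem primeCt_le (m : ℕ) : #m.primeFactors ≤ lg m := by
  rcases Nat.eq_zero_or_pos m with h0 | h0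
  · rw [h0, Nat.primeFactors_zero, Finset.card_empty]
    exact Nat.zero_le _
  have h1 : 2 ^ #m.primeFactors ≤ m := by
    calc 2 ^ #m.primeFactors = ∏ _p ∈ m.primeFactors, 2 := by rw [Finset.prod_const]
      _ ≤ ∏ p ∈ m.primeFactors, p :=
        Finset.prod_le_prod' fun p hp => (Nat.prime_of_mem_primeFactors hp).two_le
      _ ≤ m := Nat.le_of_dvd h0 (Nat.prod_primeFactors_dvd m)
  exact (Nat.le_log_iff_pow_le (by norm_num) h0.ne').2 h1

/-- products over the prime divisors -/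
theorem prodPF {n : ℕ} {m B : (Fin n → ℕ) → ℕ} {g : ℕ → (Fin n → ℕ) → ℕ}
    (hg : DFun (n + 1) (fun w => g (w 0) (fun i => w i.succ))) (hm : DFun n m) (hB : DFun n B)
    (hb : ∀ v, ∏ q ∈ (m v).primeFactors, g q v ≤ B v) :
    DFun n (fun v => ∏ q ∈ (m v).primeFactors, g q v) := by
  have e : ∀ v, ∏ q ∈ (m v).primeFactors, g q v =
      ∏ i ∈ range (#(m v).primeFactors), g (PtC.pf (m v) i) v := fun v =>
    PtC.prod_pf (m v) fun q => g q v
  refine dfun_congr ?_ e
  refine PtC.dfun_prodPoly 1 (N := m) (B := B) (g := fun i v => g (PtC.pf (m v) i) v) ?_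
    (DFun.comp1 (g := fun m => #m.primeFactors) PtC.om_def hm) hm hB (fun v => ?_) fun v => ?_
  · exact DFun.app hg (u := fun w : Fin (n + 1) → ℕ => PtC.pf (m (fun i => w i.succ)) (w 0))
      (v := fun i w => w i.succ) (DFun.comp2 (g := PtC.pf) PtC.pf_def hm.weak (DFun.proj 0))
      fun i => DFun.proj i.succ
  · rw [pow_one]
    exact (primeCt_le (m v)).trans (Nat.le_succ _)
  · rw [← e v]
    exact hb v

theorem pr_def {n : ℕ} {m q : (Fin n → ℕ) → ℕ} (hm : DFun n m) (hq : DFun n q) :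
    DFun n (fun u => pr (m u) (q u)) :=
  (ApC.ordproj_def hq hm).sub (DFun.const 1)

/-- reduction is definable -/
theorem rd_def {r n : ℕ} {M q : (Fin n → ℕ) → ℕ} (hM : DFun n M) (hq : DFun n q)
    {A : ∀ u : Fin n → ℕ, GL (Fin r) (ZMod (M u + 1))} (hA : MD M fun u => gmat (A u)) :
    MD (fun u => pr (M u + 1) (q u)) (fun u => gmat (rd r (M u + 1) (q u) (A u))) := by
  intro i j
  have h1 := DFun.mod (hA i j) (pr_def (hM.add (DFun.const 1)) hq)
  have e : (fun u => (gmat (rd r (M u + 1) (q u) (A u)) i j).val) =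
      fun u => (gmat (A u) i j).val % (pr (M u + 1) (q u) + 1) := by
    funext u
    rw [rd_val]
  rw [e]
  exact h1

theorem rd_one_def {r n : ℕ} {M q : (Fin n → ℕ) → ℕ} (hM : DFun n M) (hq : DFun n q)
    {A : ∀ u : Fin n → ℕ, GL (Fin r) (ZMod (M u + 1))} (hA : MD M fun u => gmat (A u)) :
    Delta0 n (fun u => rd r (M u + 1) (q u) (A u) = 1) := by
  refine (MD.eq (rd_def hM hq hA) (MD.one (pr_def (hM.add (DFun.const 1)) hq))).of_iff fun u => ?_
  exact ⟨fun h => by rw [h]; exact Units.val_one, fun h => Units.ext (h.trans Units.val_one.symm)⟩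

/-- the subgroups `DD` are definable -/
theorem dd_def {r n : ℕ} {M : (Fin n → ℕ) → ℕ} (hM : DFun n M)
    {H : ∀ u : Fin n → ℕ, Subgroup (GL (Fin r) (ZMod (M u + 1)))}
    (hH : Delta0 (n + 1) (fun w => (glG r).dec (fun _ : Fin 1 => M (tl w)) (w 0) ∈ H (tl w))) :
    Delta0 (n + 1 + 1) (fun x => (glG r).dec (fun _ : Fin 1 => pr (M (tl (tl x)) + 1) (tl x 0))
      (x 0) ∈ DD (H (tl (tl x))) (tl x 0)) := by
  have hM1 := hM.add (DFun.const 1)
  have hM2 : DFun (n + 1 + 1) (fun x => M (tl (tl x))) := hM.weak.weak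
  have hM3 : DFun (n + 1 + 1 + 1) (fun x => M (tl (tl (tl x)))) := hM.weak.weak.weak
  have hM4 : DFun (n + 1 + 1 + 1 + 1) (fun x => M (tl (tl (tl (tl x))))) := hM.weak.weak.weak.weak
  have h1 : Delta0 (n + 1 + 1) (fun x => ∃ g : GL (Fin r) (ZMod (M (tl (tl x)) + 1)),
      (g ∈ H (tl (tl x)) ∧ ∀ q', q' ≤ tl x 0 → (q' < tl x 0 → rd r (M (tl (tl x)) + 1) q' g = 1)) ∧
      rd r (M (tl (tl x)) + 1) (tl x 0) g =
        (glG r).dec (fun _ : Fin 1 => pr (M (tl (tl x)) + 1) (tl x 0)) (x 0)) := by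
    refine (glG r).gex (σ := fun _ x => M (tl (tl x))) (fun _ => hM2)
      (A := fun x (g : GL (Fin r) (ZMod (M (tl (tl x)) + 1))) =>
        (g ∈ H (tl (tl x)) ∧ ∀ q', q' ≤ tl x 0 →
          (q' < tl x 0 → rd r (M (tl (tl x)) + 1) q' g = 1)) ∧
        rd r (M (tl (tl x)) + 1) (tl x 0) g =
          (glG r).dec (fun _ : Fin 1 => pr (M (tl (tl x)) + 1) (tl x 0)) (x 0)) ?_
    refine Delta0.and (Delta0.and ?_ ?_) ?_
    · have h2 := hH.subst (n := n + 1 + 1 + 1)
        (h := Fin.cons (fun x => x 0) (fun i x => tl (tl (tl x)) i)) (fun i => by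
          refine Fin.cases ?_ (fun j => ?_) i
          · exact DFun.proj 0
          · exact DFun.proj _)
      exact h2
    · refine Delta0.ballFun (P := fun q' (x : Fin (n + 1 + 1 + 1) → ℕ) => q' < tl (tl x) 0 →
        rd r (M (tl (tl (tl x))) + 1) q'
          ((glG r).dec (fun _ : Fin 1 => M (tl (tl (tl x)))) (x 0)) = 1) (DFun.proj _) ?_
      refine (Delta0.ltFun (DFun.proj 0) (DFun.proj _)).imp ?_
      exact rd_one_def hM4 (q := fun x => x 0) (DFun.proj 0)
        (A := fun x => (glG r).dec (fun _ : Fin 1 => M (tl (tl (tl (tl x))))) (tl x 0))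
        (MD.weak (n := n + 1 + 1 + 1) (M := fun x => M (tl (tl (tl x))))
          (X := fun x => gmat ((glG r).dec (fun _ : Fin 1 => M (tl (tl (tl x)))) (x 0)))
          (gmat_def (n := n + 1 + 1) (M := fun x => M (tl (tl x))) hM2))
    · have hq : DFun (n + 1 + 1 + 1) (fun x => tl (tl x) 0) := DFun.proj _
      have h3 := rd_def hM3 hq
        (A := fun x => (glG r).dec (fun _ : Fin 1 => M (tl (tl (tl x)))) (x 0))
        (gmat_def (n := n + 1 + 1) (M := fun x => M (tl (tl x))) hM2)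
      have hp1 : DFun (n + 1) (fun w => pr (M (tl w) + 1) (w 0)) :=
        pr_def (hM.weak.add (DFun.const 1)) (DFun.proj 0)
      have h4 := MD.weak (n := n + 1 + 1) (M := fun x => pr (M (tl (tl x)) + 1) (tl x 0))
        (X := fun x => gmat ((glG r).dec (fun _ : Fin 1 => pr (M (tl (tl x)) + 1) (tl x 0))
          (x 0))) (gmat_def (n := n + 1) (M := fun w => pr (M (tl w) + 1) (w 0)) hp1)
      refine (MD.eq h3 h4).of_iff fun x => ?_
      exact ⟨fun h => congrArg gmat h, fun h => Units.ext h⟩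
  refine h1.of_iff fun x => ?_
  constructor
  · rintro ⟨g, hg, h⟩
    refine ⟨g, ⟨hg.1, fun q' _ hq' => hg.2 q' (Finset.mem_range.2 hq')⟩, h⟩
  · rintro ⟨g, hg, h⟩
    exact ⟨g, ⟨hg.1, fun q' hq' => hg.2 q' (Finset.mem_range.1 hq').le
      (Finset.mem_range.1 hq')⟩, h⟩

/-- **The orders of all definable subgroups of `GL_r(ℤ/m)` are definable, for all `m`.** -/
theorem card_gl {r n : ℕ} {M : (Fin n → ℕ) → ℕ} (hM : DFun n M)
    {H : ∀ u : Fin n → ℕ, Subgroup (GL (Fin r) (ZMod (M u + 1)))}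
    (hH : Delta0 (n + 1) (fun w => (glG r).dec (fun _ : Fin 1 => M (tl w)) (w 0) ∈ H (tl w))) :
    DFun n (fun u => Nat.card (H u)) := by
  obtain ⟨R, hR⟩ := sylUB_mod r 1
  have hM1 : DFun n (fun u => M u + 1) := hM.add (DFun.const 1)
  have hp1 : DFun (n + 1) (fun w => pr (M (tl w) + 1) (w 0)) :=
    pr_def (hM.weak.add (DFun.const 1)) (DFun.proj 0)
  have h1 : DFun (n + 1) (fun w => Nat.card (DD (H (tl w)) (w 0))) := by
    refine card_subU (glG r) (σ := fun _ w => pr (M (tl w) + 1) (w 0)) (fun _ => hp1)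
      (H := fun w => DD (H (tl w)) (w 0)) (dd_def hM hH) R fun w => ?_
    refine hR (pr (M (tl w) + 1) (w 0) + 1) (Nat.succ_ne_zero _) ?_ _
    rw [pr_add]
    by_cases hq : (w 0).Prime
    · rcases Nat.eq_zero_or_pos ((M (tl w) + 1).factorization (w 0)) with h0 | h0
      · rw [h0, pow_zero, Nat.primeFactors_one]
        exact Nat.zero_le _
      · rw [Nat.primeFactors_prime_pow h0.ne' hq, Finset.card_singleton]
    · rw [Nat.factorization_eq_zero_of_not_prime _ hq, pow_zero, Nat.primeFactors_one]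
      exact Nat.zero_le _
  have h2 : DFun n (fun u => ∏ q ∈ (M u + 1).primeFactors, Nat.card (DD (H u) q)) := by
    refine prodPF (g := fun q u => Nat.card (DD (H u) q)) h1 hM1
      (B := fun u => (M u + 1) ^ (r * r)) (DFun.powConst hM1 _) fun u => ?_
    rw [← card_prod]
    exact card_gl_le r (M u + 1) (H u)
  have e : (fun u => Nat.card (H u)) =
      fun u => ∏ q ∈ (M u + 1).primeFactors, Nat.card (DD (H u) q) := by
    funext u
    exact card_prod (H u)
  rw [e]
  exact h2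

end Pool.Agent.OrdM
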