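import Pool.Agent.OrdM.Main

/-!
# Groups of matrices given by relations: orders and orbit lengths
-/

set_option autoImplicit false

namespace Pool.Agent.OrdM

open Finset Pool.Agent.Grz Pool.Agent.GAvg Pool.Agent.PTr Pool.Agent.MTr Pool.Agent.LPC
open Pool.Agent.ECD Pool.Agent.LRch

section Set

variable {r m : ℕ} [NeZero m] {S : Set (Mat r m)}

theorem mem_HH {hmul : ∀ X ∈ S, ∀ Y ∈ S, X * Y ∈ S} {g : GL (Fin r) (ZMod m)} :
    g ∈ HH S ↔ g = 1 ∨ gmat g ∈ S := by
  constructor
  · intro hg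
    have h3 : g ∈ Submonoid.closure {g : GL (Fin r) (ZMod m) | gmat g ∈ S} := by
      rw [← Subgroup.closure_toSubmonoid_of_finite]
      exact hg
    clear hg
    induction h3 using Submonoid.closure_induction with
    | mem g hg => exact Or.inr hg
    | one => exact Or.inl rfl
    | mul g h _ _ hg hh =>
      rcases hg with rfl | hg
      · rwa [one_mul]
      · rcases hh with rfl | hh
        · rw [mul_one]
          exact Or.inr hg
        · refine Or.inr ?_
          have e : gmat (g * h) = gmat g * gmat h := Units.val_mul _ _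
          rw [e]
          exact hmul _ hg _ hh
  · rintro (rfl | h)
    · exact one_mem _
    · exact Subgroup.subset_closure h

/-- a nonempty closed set of invertible matrices contains the unit matrix -/
theorem one_mem' (hU : ∀ X ∈ S, IsUnit X) (hmul : ∀ X ∈ S, ∀ Y ∈ S, X * Y ∈ S)
    (hne : ∃ X, X ∈ S) : (1 : Mat r m) ∈ S := by
  obtain ⟨X, hX⟩ := hne
  obtain ⟨g, hg⟩ := hU X hX
  have h1 : ∀ k : ℕ, X ^ (k + 1) ∈ S := by
    intro k
    induction k with
    | zero => simpa using hX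
    | succ k ih =>
      rw [pow_succ]
      exact hmul _ ih _ hX
  have h2 : 0 < orderOf g := orderOf_pos g
  have h3 := h1 (orderOf g - 1)
  rw [Nat.sub_add_cancel h2, ← hg, ← Units.val_pow_eq_pow_val, pow_orderOf_eq_one,
    Units.val_one] at h3
  exact h3

theorem closure_eq (hU : ∀ X ∈ S, IsUnit X) (hmul : ∀ X ∈ S, ∀ Y ∈ S, X * Y ∈ S)
    (hne : ∃ X, X ∈ S) : (Submonoid.closure S : Set (Mat r m)) = S := by
  refine Set.Subset.antisymm ?_ Submonoid.subset_closure
  intro X hX
  induction hX using Submonoid.closure_induction with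
  | mem X hX => exact hX
  | one => exact one_mem' hU hmul hne
  | mul X Y _ _ hX hY => exact hmul _ hX _ hY

theorem card_set (hU : ∀ X ∈ S, IsUnit X) (hmul : ∀ X ∈ S, ∀ Y ∈ S, X * Y ∈ S)
    (hne : ∃ X, X ∈ S) : Nat.card S = Nat.card (HH S) := by
  rw [← card_HH hU]
  conv_lhs => rw [← closure_eq hU hmul hne]
  rfl

theorem card_orb (hU : ∀ X ∈ S, IsUnit X) (hmul : ∀ X ∈ S, ∀ Y ∈ S, X * Y ∈ S)
    (hne : ∃ X, X ∈ S) (x : Fin r → ZMod m) :
    Nat.card {y // ∃ X ∈ S, y = X.mulVec x} = Nat.card (HH S) / Nat.card (ST S x) := by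
  rw [← card_orbit hU x]
  refine Nat.card_congr (Equiv.subtypeEquivRight fun y => ?_)
  rw [sreach_iff]
  have h1 : ∀ X, X ∈ Submonoid.closure S ↔ X ∈ S := fun X => by
    rw [← SetLike.mem_coe, closure_eq hU hmul hne]
  exact exists_congr fun X => by rw [h1]

end Set

variable {r n : ℕ} {M : (Fin n → ℕ) → ℕ} (hM : DFun n M) {S : ∀ u : Fin n → ℕ, Set (Mat r (M u + 1))}
  (hS : SD M S) (hU : ∀ u, ∀ X ∈ S u, IsUnit X)
  (hmul : ∀ u, ∀ X ∈ S u, ∀ Y ∈ S u, X * Y ∈ S u)

include hM hS hmul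

theorem HH_defR : Delta0 (n + 1) (fun w => (glG r).dec (fun _ : Fin 1 => M (tl w)) (w 0) ∈
    HH (S (tl w))) := by
  have h1 : Delta0 (n + 1) (fun w => gmat (r := r) ((glG r).dec (fun _ : Fin 1 => M (tl w))
      (w 0)) = 1) := (gmat_def hM).eq (MD.one hM.weak)
  refine (h1.or ((hS.weak hM).mem hM.weak (gmat_def hM))).of_iff fun w => ?_
  refine (mem_HH (hmul := hmul _)).trans (or_congr ⟨fun h => ?_, fun h => ?_⟩ Iff.rfl)
  · rw [h]
    exact Units.val_one
  · exact Units.ext (h.trans Units.val_one.symm)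

theorem ST_defR {x : Fin r → (Fin n → ℕ) → ℕ} (hx : ∀ i, DFun n (x i)) :
    Delta0 (n + 1) (fun w => (glG r).dec (fun _ : Fin 1 => M (tl w)) (w 0) ∈
      ST (S (tl w)) fun i => (x i (tl w) : ZMod (M (tl w) + 1))) := by
  have h4 := MD.mulVec hM.weak (gmat_def (r := r) hM) (fun i => (hx i).weak)
    (fun i => (hx i).weak)
  refine ((HH_defR hM hS hmul).and h4).of_iff fun w => ?_
  exact mem_ST.trans (and_congr_right fun _ => eq_comm)

include hU

open scoped Classical in
/-- **Orders of definable groups of matrices.** -/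
theorem card_rel : DFun n (fun u => Nat.card (S u)) := by
  have h1 : Delta0 n (fun u => ∃ X, X ∈ S u) := mex hM (A := fun u X => X ∈ S u) hS
  have h2 := DFun.ite h1 (card_gl hM (H := fun u => HH (S u)) (HH_defR hM hS hmul))
    (DFun.const 0)
  refine (show (fun u => Nat.card (S u)) = _ from ?_) ▸ h2
  funext u
  by_cases h : ∃ X, X ∈ S u
  · rw [if_pos h, card_set (hU u) (hmul u) h]
  · rw [if_neg h]
    have : IsEmpty (S u) := ⟨fun X => h ⟨X.1, X.2⟩⟩
    exact Nat.card_of_isEmpty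

open scoped Classical in
/-- **Lengths of orbits of definable groups of matrices.** -/
theorem card_orb_rel {x : Fin r → (Fin n → ℕ) → ℕ} (hx : ∀ i, DFun n (x i)) :
    DFun n (fun u => Nat.card {y // ∃ X ∈ S u,
      y = X.mulVec fun i => (x i u : ZMod (M u + 1))}) := by
  have h1 : Delta0 n (fun u => ∃ X, X ∈ S u) := mex hM (A := fun u X => X ∈ S u) hS
  have h2 := DFun.ite h1 (DFun.divPos (card_gl hM (H := fun u => HH (S u)) (HH_defR hM hS hmul))
    (card_gl hM (H := fun u => ST (S u) fun i => (x i u : ZMod (M u + 1)))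
      (ST_defR hM hS hmul hx)) fun u => Nat.card_pos) (DFun.const 0)
  refine (show (fun u => Nat.card {y // ∃ X ∈ S u,
      y = X.mulVec fun i => (x i u : ZMod (M u + 1))}) = _ from ?_) ▸ h2
  funext u
  by_cases h : ∃ X, X ∈ S u
  · rw [if_pos h, card_orb (hU u) (hmul u) h]
  · rw [if_neg h]
    have : IsEmpty {y // ∃ X ∈ S u, y = X.mulVec fun i => (x i u : ZMod (M u + 1))} :=
      ⟨fun y => by
        obtain ⟨X, hX, -⟩ := y.2
        exact h ⟨X, hX⟩⟩
    exact Nat.card_of_isEmpty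

end Pool.Agent.OrdM
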